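import Pool.Agent.Y520.AS.Stm
import Pool.Agent.H947R3.Int

/-!
# The integral estimate with advection

A modification of `Pool.Agent.H947R3.nedev` (starting file).
-/

set_option autoImplicit false

open MeasureTheory Set Filter Topology Laplacian InnerProductSpace

namespace Pool.Agent.Y314.AS

open Pool.Agent.H947R3 Pool.Agent.Y520.AR Pool.Agent.Y520.AS

theorem t_NED (hR : S_DRE) : S_NED := by
  intro n Ω c B u f d l C Φ Ψ Θ k B₀ hD h hf hl heq hst hΦ hΨ hΘ hk hz hpos hP hBC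
  have hB := hD.nonneg
  have hΦ0 : ∀ t, 0 < t → t < 1 / 4 → Φ t = 0 := fun t h1 h2 => (hz t h1 h2).1
  have hΨ0 : ∀ t, 0 < t → t < 1 / 4 → Ψ t = 0 := fun t h1 h2 => (hz t h1 h2).2.1
  have hΘ0 : ∀ t, 0 < t → t < 1 / 4 → Θ t = 0 := fun t h1 h2 => (hz t h1 h2).2.2
  have hΦc : ContinuousOn Φ (Ioo 0 1) := fun t ht => (hΦ t ht).continuousAt.continuousWithinAt
  have hΨc : ContinuousOn Ψ (Ioo 0 1) := fun t ht => (hΨ t ht).continuousAt.continuousWithinAt
  have hfc : ContinuousOn f (Ioo 0 1) := fun t ht => (hf.hd t ht).continuousAt.continuousWithinAt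
  have hε : (0 : ℝ) < 1 / 4 := by norm_num
  obtain ⟨J1, J2, J3⟩ := hR n Ω c B (1 / 4) u Θ Ψ hD h hε hΘ0 hΘ hΨc (fun t ht => (hpos t ht).2.2)
  -- the energy identity for Ψ
  have en := h.energy hε hΨ0 hΨ (hk.pow 2)
  -- stability with `φ = Φ(u)`
  have hΦ1 : ContDiffOn ℝ 1 Φ (Ioo 0 1) := by
    have h1 : ∀ t ∈ Ioo (0 : ℝ) 1, deriv Φ t = k t := fun t ht => (hΦ t ht).deriv
    rw [show (1 : WithTop ℕ∞) = 0 + 1 from rfl, contDiffOn_succ_iff_deriv_of_isOpen isOpen_Ioo]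
    refine ⟨fun t ht => (hΦ t ht).differentiableAt.differentiableWithinAt, by simp, ?_⟩
    exact contDiffOn_zero.2 (hk.congr h1)
  have st := hst (cmp Ω Φ u) (h.contDiff_cmp hε hΦ0 hΦ1) (h.hasCompactSupport_cmp hε hΦ0)
    (h.tsupport_cmp_subset hε hΦ0)
  have e1 : (fun x => l * d (u x) * cmp Ω Φ u x ^ 2) =
      Ω.indicator (fun x => l * (d (u x) * Φ (u x) ^ 2)) := by
    funext x
    by_cases hx : x ∈ Ω
    · rw [indicator_of_mem hx]; simp [H947R3.cmp, hx]; ring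
    · rw [indicator_of_notMem hx]; simp [H947R3.cmp, hx]
  have e2 : (fun x => ∑ i, (pd (cmp Ω Φ u) i x) ^ 2) =
      Ω.indicator (fun x => k (u x) ^ 2 * ∑ i, (pd u i x) ^ 2) := by
    funext x
    by_cases hx : x ∈ Ω
    · rw [indicator_of_mem hx, Finset.mul_sum]
      refine Finset.sum_congr rfl fun i _ => ?_
      rw [h.pd_cmp hx (hΦ _ ⟨h.pos x hx, h.lt x hx⟩)]
      ring
    · rw [indicator_of_notMem hx]
      refine Finset.sum_eq_zero fun i _ => ?_
      rw [pd_eq_zero_of_notMem (fun hh => hx (h.tsupport_cmp_subset hε hΦ0 hh)) i]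
      simp
  have e2' : (fun x => cmp Ω Φ u x ^ 2) = Ω.indicator (fun x => Φ (u x) ^ 2) := by
    funext x
    by_cases hx : x ∈ Ω
    · rw [indicator_of_mem hx]; simp [H947R3.cmp, hx]
    · rw [indicator_of_notMem hx]; simp [H947R3.cmp, hx]
  rw [e1, e2, e2', integral_indicator h.opn.measurableSet, integral_indicator h.opn.measurableSet,
    integral_indicator h.opn.measurableSet, en] at st
  -- integrability
  have I1 : IntegrableOn (fun x => d (u x) * Φ (u x)) Ω := by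
    have := h.integrableOn_comp_mul (κ := fun t => d t * Φ t) hε
      (fun t h1 h2 => by simp [hΦ0 t h1 h2]) (hf.dcont.mul hΦc) (G := fun _ => 1) continuousOn_const
    simpa using this
  have I2 : IntegrableOn (fun x => d (u x) * Φ (u x) ^ 2) Ω := by
    have := h.integrableOn_comp_mul (κ := fun t => d t * Φ t ^ 2) hε
      (fun t h1 h2 => by simp [hΦ0 t h1 h2]) (hf.dcont.mul (hΦc.pow 2)) (G := fun _ => 1)
      continuousOn_const
    simpa using this
  have I3 : IntegrableOn (fun x => f (u x) * Ψ (u x)) Ω := by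
    have := h.integrableOn_comp_mul (κ := fun t => f t * Ψ t) hε
      (fun t h1 h2 => by simp [hΨ0 t h1 h2]) (hfc.mul hΨc) (G := fun _ => 1)
      continuousOn_const
    simpa using this
  have I5 : IntegrableOn (fun x => Φ (u x) ^ 2) Ω := by
    have := h.integrableOn_comp_mul (κ := fun t => Φ t ^ 2) hε
      (fun t h1 h2 => by simp [hΦ0 t h1 h2]) (hΦc.pow 2) (G := fun _ => 1)
      continuousOn_const
    simpa using this
  have I4 : IntegrableOn (fun _ : E n => B₀) Ω := integrableOn_const h.volume_lt_top.ne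
  have e3 : ∫ x in Ω, - Δ u x * Ψ (u x) = l * (∫ x in Ω, f (u x) * Ψ (u x)) -
      ∫ x in Ω, fderiv ℝ u x (c x) * Ψ (u x) := by
    rw [← integral_const_mul, ← integral_sub (I3.const_mul l) J2]
    apply setIntegral_congr_fun h.opn.measurableSet
    intro x hx
    have h1 := heq x hx
    simp only
    have h2 : -(Δ u x) = l * f (u x) - fderiv ℝ u x (c x) := by linarith
    rw [h2]
    ring
  have e4 : ∫ x in Ω, l * (d (u x) * Φ (u x) ^ 2) = l * ∫ x in Ω, d (u x) * Φ (u x) ^ 2 :=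
    integral_const_mul _ _
  rw [e3, e4] at st
  have P1 : 0 ≤ ∫ x in Ω, Φ (u x) ^ 2 :=
    setIntegral_nonneg h.opn.measurableSet fun x _ => sq_nonneg _
  have P2 : 0 ≤ ∫ x in Ω, Θ (u x) :=
    setIntegral_nonneg h.opn.measurableSet fun x hx => (hpos _ ⟨h.pos x hx, h.lt x hx⟩).2.2
  refine ⟨I1, ?_⟩
  have fin : ∫ x in Ω, d (u x) * Φ (u x) ≤
      ∫ x in Ω, (d (u x) * Φ (u x) ^ 2 - f (u x) * Ψ (u x) - C * (Φ (u x) ^ 2 + Θ (u x)) + B₀) := by
    apply setIntegral_mono_on I1 (((I2.sub I3).sub ((I5.add J1).const_mul C)).add I4)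
      h.opn.measurableSet
    intro x hx
    exact hP _ ⟨h.pos x hx, h.lt x hx⟩
  have e5 : ∫ x in Ω, (d (u x) * Φ (u x) ^ 2 - f (u x) * Ψ (u x) -
      C * (Φ (u x) ^ 2 + Θ (u x)) + B₀) =
      (∫ x in Ω, d (u x) * Φ (u x) ^ 2) - (∫ x in Ω, f (u x) * Ψ (u x)) -
      C * ((∫ x in Ω, Φ (u x) ^ 2) + ∫ x in Ω, Θ (u x)) + B₀ * volume.real Ω := by
    have h0 := integral_add ((I2.sub I3).sub ((I5.add J1).const_mul C)) I4
    have h1 := integral_sub (I2.sub I3) ((I5.add J1).const_mul C)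
    have h2 := integral_sub I2 I3
    have h4 := integral_add I5 J1
    have h5 : ∫ x in Ω, C * (Φ (u x) ^ 2 + Θ (u x)) = C * ∫ x in Ω, (Φ (u x) ^ 2 + Θ (u x)) :=
      integral_const_mul _ _
    have h3 : ∫ x in Ω, (B₀ : ℝ) = B₀ * volume.real Ω := by
      rw [setIntegral_const, smul_eq_mul, mul_comm]
    rw [← h2, ← h3, ← h4, ← h5]
    refine h0.trans ?_
    congr 1
  rw [e5] at fin
  have hn : (0 : ℝ) ≤ n := Nat.cast_nonneg n
  have hnB : 0 ≤ n * B := mul_nonneg hn hB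
  have hBB : 0 ≤ B ^ 2 := sq_nonneg B
  generalize (∫ x in Ω, Φ (u x) ^ 2) = X at *
  generalize (∫ x in Ω, Θ (u x)) = Y at *
  generalize (∫ x in Ω, fderiv ℝ u x (c x) * Ψ (u x)) = Z at *
  generalize (∫ x in Ω, f (u x) * Ψ (u x)) = V at *
  generalize (∫ x in Ω, d (u x) * Φ (u x) ^ 2) = U at *
  have key : l * (U - V) ≤ l * (C * (X + Y)) := by
    have k1 : (B ^ 2 / 4 + n * B / 2) * X ≤ (n * B + B ^ 2) * X :=
      mul_le_mul_of_nonneg_right (by linarith) P1
    have k2 : n * B * Y ≤ (n * B + B ^ 2) * Y := mul_le_mul_of_nonneg_right (by linarith) P2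
    have k3 : (n * B + B ^ 2) * (X + Y) ≤ l * C * (X + Y) :=
      mul_le_mul_of_nonneg_right hBC (add_nonneg P1 P2)
    nlinarith
  have key2 : U - V ≤ C * (X + Y) := le_of_mul_le_mul_left key hl
  linarith

end Pool.Agent.Y314.AS
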